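import Pool.Agent.Helper52.Hemi.Goals

/-!
Packet H1 of MP_7aba51_co: the number of points of a quartic in characteristic 3.
-/

set_option autoImplicit false

open Classical

namespace Pool.Agent.Helper80.Hemi

open Pool.Agent.Helper52.Hemi

variable {k : Type} [Field k] [Fintype k]

omit [Fintype k] in
theorem ringChar_ne_two (h3 : (3 : k) = 0) : ringChar k ≠ 2 := by
  intro h
  have h2 : ((2 : ℕ) : k) = 0 := by
    rw [← h]; exact ringChar.Nat.cast_ringChar
  push_cast at h2
  have : (1 : k) = 0 := by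
    linear_combination h3 - h2
  exact one_ne_zero this

/-- Number of roots of a quadratic polynomial in characteristic 3. -/
theorem card_quad (h3 : (3 : k) = 0) (a b c : k) (ha : a ≠ 0) :
    ((Finset.univ.filter (fun x : k => a * x ^ 2 + b * x + c = 0)).card : ℤ) =
      1 + quadraticChar k (b ^ 2 - a * c) := by
  have h := quadraticChar_card_sqrts (ringChar_ne_two h3) (b ^ 2 - a * c)
  rw [add_comm 1, ← h]
  congr 1
  refine Finset.card_bij (fun x _ => b - a * x) ?_ ?_ ?_
  · intro x hx
    simp only [Finset.mem_filter, Finset.mem_univ, true_and] at hx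
    simp only [Set.mem_toFinset, Set.mem_ofPred_eq]
    linear_combination a * hx - a * b * x * h3
  · intro x _ y _ hxy
    have : a * x = a * y := by linear_combination -hxy
    exact mul_left_cancel₀ ha this
  · intro z hz
    simp only [Set.mem_toFinset, Set.mem_ofPred_eq] at hz
    refine ⟨(b - z) / a, ?_, ?_⟩
    · simp only [Finset.mem_filter, Finset.mem_univ, true_and]
      have h1 : a * (a * ((b - z) / a) ^ 2 + b * ((b - z) / a) + c) = 0 := by
        have h2 : a * ((b - z) / a) = b - z := by field_simp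
        have h4 : a * (a * ((b - z) / a) ^ 2 + b * ((b - z) / a) + c) =
          (a * ((b - z) / a)) ^ 2 + b * (a * ((b - z) / a)) + a * c := by ring
        rw [h4, h2]
        linear_combination hz + (b ^ 2 - b * z) * h3
      rcases mul_eq_zero.1 h1 with h | h
      · exact absurd h ha
      · exact h
    · field_simp
      ring

theorem sum_ite_card {α : Type} [Fintype α] (P : α → Prop) :
    (∑ x : α, if P x then (1 : ℤ) else 0) = ((Finset.univ.filter P).card : ℤ) := by
  rw [Finset.card_filter]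
  push_cast
  rfl

theorem sum_quad (h3 : (3 : k) = 0) (a b c : k) (ha : a ≠ 0) :
    (∑ x : k, if a * x ^ 2 + b * x + c = 0 then (1 : ℤ) else 0) =
      1 + quadraticChar k (b ^ 2 - a * c) := by
  rw [sum_ite_card, card_quad h3 a b c ha]

/-- The quartic character sum as a cubic one. -/
theorem quartic_sum (h3 : (3 : k) = 0) (κ t : k) (ht : t ≠ 0) :
    ∑ m : k, quadraticChar k (m ^ 4 - κ * m + t ^ 2) =
      -1 + ∑ v : k, quadraticChar k (v ^ 3 - t ^ 2 * v + κ ^ 2) := by
  have h1 : ∀ m : k, (∑ v : k, if m ^ 2 * v + κ * m + v ^ 2 - t ^ 2 = 0 then (1 : ℤ) else 0) =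
      1 + quadraticChar k (m ^ 4 - κ * m + t ^ 2) := by
    intro m
    have := sum_quad h3 (1 : k) (m ^ 2) (κ * m - t ^ 2) one_ne_zero
    have e1 : (m ^ 2) ^ 2 - 1 * (κ * m - t ^ 2) = m ^ 4 - κ * m + t ^ 2 := by ring
    rw [e1] at this
    rw [← this]
    refine Finset.sum_congr rfl fun v _ => ?_
    have : (m ^ 2 * v + κ * m + v ^ 2 - t ^ 2 = 0) ↔
        (1 * v ^ 2 + m ^ 2 * v + (κ * m - t ^ 2) = 0) := by
      constructor <;> intro h <;> linear_combination h
    simp only [this]
  have h2 : ∀ v : k, (∑ m : k, if m ^ 2 * v + κ * m + v ^ 2 - t ^ 2 = 0 then (1 : ℤ) else 0) =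
      (1 + quadraticChar k (κ ^ 2 - v ^ 3 + t ^ 2 * v)) - if v = 0 then 1 else 0 := by
    intro v
    by_cases hv : v = 0
    · subst hv
      simp only [mul_zero, zero_add, ne_eq, OfNat.ofNat_ne_zero, not_false_eq_true, zero_pow,
        add_zero, sub_zero, if_true]
      by_cases hκ : κ = 0
      · subst hκ
        simp [ht]
      · have h4 : quadraticChar k (κ ^ 2) = 1 := by
          exact quadraticChar_sq_one' hκ
        rw [h4]
        have h5 : ∀ m : k, (κ * m - t ^ 2 = 0) ↔ m = t ^ 2 / κ := by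
          intro m
          rw [eq_div_iff hκ]
          constructor <;> intro h <;> linear_combination h
        simp only [h5]
        simp
    · simp only [hv, if_false, sub_zero]
      have := sum_quad h3 v κ (v ^ 2 - t ^ 2) hv
      have e1 : κ ^ 2 - v * (v ^ 2 - t ^ 2) = κ ^ 2 - v ^ 3 + t ^ 2 * v := by ring
      rw [e1] at this
      rw [← this]
      refine Finset.sum_congr rfl fun m _ => ?_
      have : (m ^ 2 * v + κ * m + v ^ 2 - t ^ 2 = 0) ↔
          (v * m ^ 2 + κ * m + (v ^ 2 - t ^ 2) = 0) := by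
        constructor <;> intro h <;> linear_combination h
      simp only [this]
  have h5 : ∑ m : k, (1 + quadraticChar k (m ^ 4 - κ * m + t ^ 2)) =
      ∑ v : k, ((1 + quadraticChar k (κ ^ 2 - v ^ 3 + t ^ 2 * v)) - if v = 0 then 1 else 0) := by
    rw [← Finset.sum_congr rfl fun m _ => h1 m, ← Finset.sum_congr rfl fun v _ => h2 v,
      Finset.sum_comm]
  rw [Finset.sum_add_distrib, Finset.sum_sub_distrib, Finset.sum_add_distrib] at h5
  have h6 : ∑ v : k, quadraticChar k (κ ^ 2 - v ^ 3 + t ^ 2 * v) =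
      ∑ v : k, quadraticChar k (v ^ 3 - t ^ 2 * v + κ ^ 2) := by
    refine Fintype.sum_equiv (Equiv.neg k) _ _ fun v => ?_
    congr 1
    simp only [Equiv.neg_apply]
    ring
  rw [h6] at h5
  have h7 : (∑ x : k, if x = 0 then (1 : ℤ) else 0) = 1 := by simp
  rw [h7] at h5
  linarith

/-- The number of points for a fixed value of the parameter. -/
theorem fibre_count (h3 : (3 : k) = 0) (d a0 c e : k) (hd : ¬ IsSquare d)
    (ha0 : a0 ≠ 0) (m : k) :
    ((Finset.univ.filter (fun p : k × k =>
      (p.1 ^ 2 - d * p.2 ^ 2) - (p.1 - d * c * p.2) = m ∧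
        m * (p.1 - d * c * p.2) + (a0 * p.1 - d * e * p.2) = m ^ 2)).card : ℤ) =
    1 - quadraticChar k ((m + (1 - d * c ^ 2)) ^ 4 -
      ((1 - d * c ^ 2) ^ 3 + (a0 ^ 2 - d * e ^ 2)) * (m + (1 - d * c ^ 2)) +
      (a0 - d * c * e) ^ 2) := by
  have hd0 : d ≠ 0 := fun h => hd (h ▸ IsSquare.zero)
  have hdchar : quadraticChar k d = -1 := quadraticChar_neg_one_iff_not_isSquare.2 hd
  set D := (m + (1 - d * c ^ 2)) ^ 4 -
      ((1 - d * c ^ 2) ^ 3 + (a0 ^ 2 - d * e ^ 2)) * (m + (1 - d * c ^ 2)) +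
      (a0 - d * c * e) ^ 2 with hD
  set A := m + a0 with hA
  set B := m * c + e with hB
  set R := m ^ 2 + m * (1 - d * c ^ 2) + (a0 - d * c * e) with hR
  have hDR : D = R ^ 2 - (A ^ 2 - d * B ^ 2) * (m + (1 - d * c ^ 2)) := by
    rw [hD, hR, hA, hB]
    linear_combination (m * (1 - d * c ^ 2) ^ 3 + 2 * m ^ 2 * (1 - d * c ^ 2) ^ 2 +
      m ^ 3 * (1 - d * c ^ 2)) * h3
  by_cases hAB : A = 0 ∧ B = 0
  · obtain ⟨hA0, hB0⟩ := hAB
    have hm : m = -a0 := by linear_combination hA0
    have he : e = a0 * c := by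
      have : m * c + e = 0 := hB0
      rw [hm] at this
      linear_combination this
    have hR0 : R = a0 ^ 2 := by
      rw [hR, hm, he]
      ring
    have hD1 : D = (a0 ^ 2) ^ 2 := by
      rw [hDR, hA0, hB0, hR0]
      ring
    rw [hD1, quadraticChar_sq_one' (pow_ne_zero 2 ha0)]
    simp only [sub_self, Nat.cast_eq_zero, Finset.card_eq_zero]
    rw [Finset.filter_eq_empty_iff]
    rintro ⟨s, y⟩ _ ⟨_, h2⟩
    simp only at h2
    rw [hm, he] at h2
    have : a0 ^ 2 = 0 := by linear_combination -h2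
    exact ha0 (pow_eq_zero_iff (two_ne_zero) |>.1 this)
  · have hΔ : A ^ 2 - d * B ^ 2 ≠ 0 := by
      intro h
      by_cases hB0 : B = 0
      · have hA0 : A = 0 := by
          rw [hB0] at h
          have : A ^ 2 = 0 := by linear_combination h
          exact pow_eq_zero_iff (two_ne_zero) |>.1 this
        exact hAB ⟨hA0, hB0⟩
      · apply hd
        refine ⟨A / B, ?_⟩
        field_simp
        linear_combination -h
    have hcount := card_quad h3 d 0 (-D) hd0
    have e1 : (0 : k) ^ 2 - d * -D = d * D := by ring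
    rw [e1, map_mul, hdchar] at hcount
    have : (1 : ℤ) - quadraticChar k D = 1 + -1 * quadraticChar k D := by ring
    rw [this, ← hcount]
    congr 1
    -- a bijection between the two sets
    refine Finset.card_nbij' (fun p : k × k => A * (p.2 + c) - B * (p.1 + 1))
      (fun Q => ((A * R + d * B * Q) / (A ^ 2 - d * B ^ 2) - 1,
        (B * R + A * Q) / (A ^ 2 - d * B ^ 2) - c)) ?_ ?_ ?_ ?_
    · rintro ⟨s, y⟩ hp
      simp only [Finset.coe_filter, Finset.mem_univ, true_and, Set.mem_ofPred_eq] at hp ⊢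
      obtain ⟨h1, h2⟩ := hp
      have hM : m + (1 - d * c ^ 2) = (s + 1) ^ 2 - d * (y + c) ^ 2 := by
        linear_combination -h1 + (-s + d * c * y) * h3
      have hRR : R = A * (s + 1) - d * B * (y + c) := by
        rw [hR, hA, hB]
        linear_combination -h2
      rw [hDR, hM, hRR]
      ring
    · intro Q hQ
      simp only [Finset.coe_filter, Finset.mem_univ, true_and, Set.mem_ofPred_eq] at hQ ⊢
      set S := (A * R + d * B * Q) / (A ^ 2 - d * B ^ 2) with hS
      set Y := (B * R + A * Q) / (A ^ 2 - d * B ^ 2) with hY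
      have hAS : A * S - d * B * Y = R := by
        have h7 : A * S - d * B * Y = (A * (A * R + d * B * Q) - d * B * (B * R + A * Q)) /
            (A ^ 2 - d * B ^ 2) := by
          rw [hS, hY]; ring
        rw [h7, div_eq_iff hΔ]
        ring
      have hAY : A * Y - B * S = Q := by
        have h7 : A * Y - B * S = (A * (B * R + A * Q) - B * (A * R + d * B * Q)) /
            (A ^ 2 - d * B ^ 2) := by
          rw [hS, hY]; ring
        rw [h7, div_eq_iff hΔ]
        ring
      have hM : m + (1 - d * c ^ 2) = S ^ 2 - d * Y ^ 2 := by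
        have h5 : (A ^ 2 - d * B ^ 2) * (m + (1 - d * c ^ 2)) =
            (A ^ 2 - d * B ^ 2) * (S ^ 2 - d * Y ^ 2) := by
          have h6 : (A ^ 2 - d * B ^ 2) * (S ^ 2 - d * Y ^ 2) = R ^ 2 - d * Q ^ 2 := by
            rw [← hAS, ← hAY]; ring
          rw [h6]
          linear_combination hQ + hDR
        exact mul_left_cancel₀ hΔ h5
      constructor
      · linear_combination -hM + (-S + 1 + d * c * Y - d * c ^ 2) * h3
      · have hRR : m ^ 2 + m * (1 - d * c ^ 2) + (a0 - d * c * e) =
            (m + a0) * S - d * (m * c + e) * Y := by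
          rw [← hR, ← hAS]
        linear_combination -hRR
    · rintro ⟨s, y⟩ hp
      simp only [Finset.coe_filter, Finset.mem_univ, true_and, Set.mem_ofPred_eq] at hp
      obtain ⟨h1, h2⟩ := hp
      have hRR : R = A * (s + 1) - d * B * (y + c) := by
        rw [hR, hA, hB]
        linear_combination -h2
      simp only [Prod.mk.injEq]
      rw [hRR]
      constructor
      · rw [sub_eq_iff_eq_add, div_eq_iff hΔ]
        ring
      · rw [sub_eq_iff_eq_add, div_eq_iff hΔ]
        ring
    · intro Q _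
      simp only
      have h7 : A * ((B * R + A * Q) / (A ^ 2 - d * B ^ 2) - c + c) -
          B * ((A * R + d * B * Q) / (A ^ 2 - d * B ^ 2) - 1 + 1) =
          (A * (B * R + A * Q) - B * (A * R + d * B * Q)) / (A ^ 2 - d * B ^ 2) := by ring
      rw [h7, div_eq_iff hΔ]
      ring

theorem goalCount : GoalCount := by
  intro k _ _ h3 d a0 c e hd hz ht
  have ha0 : a0 ≠ 0 := by
    intro h
    exact hz 0 (by rw [h]; ring)
  rw [← sum_ite_card]
  have h1 : ∀ p : k × k, (if (p.1 ^ 2 - d * p.2 ^ 2) ^ 2 =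
      (p.1 - d * c * p.2) ^ 2 + a0 * p.1 - d * e * p.2 then (1 : ℤ) else 0) =
      ∑ m : k, if ((p.1 ^ 2 - d * p.2 ^ 2) - (p.1 - d * c * p.2) = m ∧
        m * (p.1 - d * c * p.2) + (a0 * p.1 - d * e * p.2) = m ^ 2) then (1 : ℤ) else 0 := by
    rintro ⟨s, y⟩
    simp only
    have h2 : ∀ m : k, (if ((s ^ 2 - d * y ^ 2) - (s - d * c * y) = m ∧
        m * (s - d * c * y) + (a0 * s - d * e * y) = m ^ 2) then (1 : ℤ) else 0) =
        if m = (s ^ 2 - d * y ^ 2) - (s - d * c * y) then
          (if (s ^ 2 - d * y ^ 2) ^ 2 = (s - d * c * y) ^ 2 + a0 * s - d * e * y then 1 else 0)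
          else 0 := by
      intro m
      by_cases hm : m = (s ^ 2 - d * y ^ 2) - (s - d * c * y)
      · simp only [← hm, true_and, if_true]
        have : (m * (s - d * c * y) + (a0 * s - d * e * y) = m ^ 2) ↔
            ((s ^ 2 - d * y ^ 2) ^ 2 = (s - d * c * y) ^ 2 + a0 * s - d * e * y) := by
          constructor
          · intro h
            linear_combination (-1 : k) * h + m * (s - d * c * y) * h3 -
              ((s ^ 2 - d * y ^ 2) + (s - d * c * y) + m) * hm
          · intro h
            linear_combination (-1 : k) * h + m * (s - d * c * y) * h3 -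
              ((s ^ 2 - d * y ^ 2) + (s - d * c * y) + m) * hm
        simp only [this]
      · have : ¬ ((s ^ 2 - d * y ^ 2) - (s - d * c * y) = m ∧
            m * (s - d * c * y) + (a0 * s - d * e * y) = m ^ 2) := fun h => hm h.1.symm
        simp only [this, hm, if_false]
    rw [Finset.sum_congr rfl fun m _ => h2 m]
    simp
  rw [Finset.sum_congr rfl fun p _ => h1 p, Finset.sum_comm]
  have h9 : ∀ m : k, (∑ p : k × k, if ((p.1 ^ 2 - d * p.2 ^ 2) - (p.1 - d * c * p.2) = m ∧
        m * (p.1 - d * c * p.2) + (a0 * p.1 - d * e * p.2) = m ^ 2) then (1 : ℤ) else 0) =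
      1 - quadraticChar k ((m + (1 - d * c ^ 2)) ^ 4 -
      ((1 - d * c ^ 2) ^ 3 + (a0 ^ 2 - d * e ^ 2)) * (m + (1 - d * c ^ 2)) +
      (a0 - d * c * e) ^ 2) := by
    intro m
    rw [← fibre_count h3 d a0 c e hd ha0 m, Finset.card_filter]
    push_cast
    rfl
  rw [Finset.sum_congr rfl fun m _ => h9 m]
  rw [Finset.sum_sub_distrib]
  have h8 : ∑ m : k, quadraticChar k ((m + (1 - d * c ^ 2)) ^ 4 -
      ((1 - d * c ^ 2) ^ 3 + (a0 ^ 2 - d * e ^ 2)) * (m + (1 - d * c ^ 2)) +
      (a0 - d * c * e) ^ 2) = ∑ m : k, quadraticChar k (m ^ 4 -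
      ((1 - d * c ^ 2) ^ 3 + (a0 ^ 2 - d * e ^ 2)) * m + (a0 - d * c * e) ^ 2) :=
    Fintype.sum_equiv (Equiv.addRight (1 - d * c ^ 2)) _ _ fun m => rfl
  rw [h8, quartic_sum h3 _ _ ht]
  simp only [Finset.sum_const, Finset.card_univ, nsmul_eq_mul, mul_one]
  ring

end Pool.Agent.Helper80.Hemi
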